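import Mathlib

set_option autoImplicit false

/-!
Codes in the cube whose half is a maximal simplex of the Vietoris-Rips complex of scale `n - 2`.
-/

namespace Pool.Agent.X177.Hyp14

open Finset

/-- The vertex set `{0,1}^n` of the hypercube graph. -/
abbrev Cube (n : ℕ) := Fin n → ZMod 2

theorem zne {a b : ZMod 2} (h : a ≠ b) : b = a + 1 := by
  revert a b; decide

theorem z01 (a : ZMod 2) : a = 0 ∨ a = 1 := by
  revert a; decide

theorem zadd (a : ZMod 2) : a + 1 + 1 = a := by
  revert a; decide

variable {n : ℕ}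

theorem dist_one {x y : Cube n} (h : hammingDist x y = 1) : ∃ i, y = x + Pi.single i 1 := by
  classical
  rw [hammingDist, Finset.card_eq_one] at h
  obtain ⟨a, ha⟩ := h
  refine ⟨a, ?_⟩
  have hm : ∀ j, x j ≠ y j ↔ j = a := by
    intro j
    have := Finset.ext_iff.1 ha j
    simpa using this
  funext j
  by_cases hj : j = a
  · subst hj
    simpa using zne ((hm j).2 rfl)
  · have h1 : x j = y j := by
      by_contra h2
      exact hj ((hm j).1 h2)
    simp [hj, h1]

theorem dist_single (x : Cube n) (i : Fin n) : hammingDist x (x + Pi.single i 1) = 1 := by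
  classical
  rw [hammingDist, Finset.card_eq_one]
  refine ⟨i, ?_⟩
  ext j
  by_cases hj : j = i
  · subst hj
    simp
  · simp [hj]

theorem dist_compl (x y : Cube n) : hammingDist (x + 1) y + hammingDist x y = n := by
  classical
  have h1 : hammingDist (x + 1) y = (univ.filter fun i => ¬ (x i ≠ y i)).card := by
    rw [hammingDist]
    congr 1
    ext i
    simp only [mem_filter, mem_univ, true_and, Pi.add_apply, Pi.one_apply, not_not]
    generalize x i = a
    generalize y i = b
    revert a b
    decide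
  have h2 : hammingDist x y = (univ.filter fun i => x i ≠ y i).card := rfl
  have h3 := Finset.card_filter_add_card_filter_not (s := (univ : Finset (Fin n)))
    (fun i => x i ≠ y i)
  rw [h1, h2]
  simp only [card_univ, Fintype.card_fin] at h3
  omega

theorem add_one_one (x : Cube n) : x + 1 + 1 = x := by
  funext i
  exact zadd _

section code

variable {k : ℕ}

/-- The first seven coordinates. -/
def s (j : Fin 7) : Fin (7 + k) := Fin.castAdd k j

/-- The other coordinates. -/
def tt (j : Fin k) : Fin (7 + k) := Fin.natAdd 7 j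

theorem s_inj {a b : Fin 7} : (s a : Fin (7 + k)) = s b ↔ a = b := by
  simp [s, Fin.ext_iff]

theorem tt_ne_s (j : Fin k) (a : Fin 7) : (tt j : Fin (7 + k)) ≠ s a := by
  intro h
  have := congrArg Fin.val h
  have ha := a.2
  simp [s, tt] at this
  omega

def E1 (x : Cube (7 + k)) : ZMod 2 := (∑ i, x i) + x (s 0) + x (s 1)

def E2 (H : Cube k → ZMod 2) (x : Cube (7 + k)) : ZMod 2 :=
  x (s 0) + x (s 1) + x (s 4) + x (s 5) + H (fun j => x (tt j) + x (s 6))

def ph (x : Cube (7 + k)) : ZMod 2 := x (s 0) + x (s 2) + x (s 4)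

theorem E1_single (x : Cube (7 + k)) (i : Fin (7 + k)) :
    E1 (x + Pi.single i 1) = E1 x + 1 + (if s 0 = i then 1 else 0) + (if s 1 = i then 1 else 0) := by
  simp only [E1, Pi.add_apply, Finset.sum_add_distrib, Pi.single_apply]
  simp
  ring

theorem E2_single (H : Cube k → ZMod 2) (x : Cube (7 + k)) (a : Fin 7) (ha : a ≠ 6) :
    E2 H (x + Pi.single (s a) 1) =
      E2 H x + (if 0 = a ∨ 1 = a ∨ 4 = a ∨ 5 = a then 1 else 0) := by
  have h1 : ∀ j : Fin k, (x + Pi.single (s a) 1 : Cube (7 + k)) (tt j) = x (tt j) := by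
    intro j
    simp [tt_ne_s]
  simp only [E2, h1]
  simp only [Pi.add_apply, Pi.single_apply, s_inj]
  have h6 : ¬ ((6 : Fin 7) = a) := fun h => ha h.symm
  simp only [h6, if_false, add_zero]
  generalize H _ = w
  generalize x (s 0) = x0
  generalize x (s 1) = x1
  generalize x (s 4) = x4
  generalize x (s 5) = x5
  clear h1 h6
  revert a x0 x1 x4 x5 w
  decide

theorem ph_single (x : Cube (7 + k)) (a : Fin 7) :
    ph (x + Pi.single (s a) 1) = ph x + (if 0 = a ∨ 2 = a ∨ 4 = a then 1 else 0) := by
  simp only [ph, Pi.add_apply, Pi.single_apply, s_inj]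
  generalize x (s 0) = x0
  generalize x (s 2) = x1
  generalize x (s 4) = x4
  revert a x0 x1 x4
  decide

theorem E1_compl (hk : Odd k) (x : Cube (7 + k)) : E1 (x + 1) = E1 x := by
  have h0 : ((7 + k : ℕ) : ZMod 2) = 0 := by
    obtain ⟨m, rfl⟩ := hk
    have : (7 + (2 * m + 1) : ℕ) = 2 * (m + 4) := by ring
    rw [this]
    push_cast
    have : (2 : ZMod 2) = 0 := rfl
    rw [this, zero_mul]
  simp only [E1, Pi.add_apply, Pi.one_apply, Finset.sum_add_distrib, Finset.sum_const,
    Finset.card_univ, Fintype.card_fin, nsmul_eq_mul, h0, mul_one, add_zero]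
  generalize ∑ i, x i = w
  generalize x (s 0) = x0
  generalize x (s 1) = x1
  revert w x0 x1
  decide

theorem E2_compl (H : Cube k → ZMod 2) (x : Cube (7 + k)) : E2 H (x + 1) = E2 H x := by
  have h1 : (fun j : Fin k => (x + 1 : Cube (7 + k)) (tt j) + (x + 1 : Cube (7 + k)) (s 6)) =
      fun j => x (tt j) + x (s 6) := by
    funext j
    simp only [Pi.add_apply, Pi.one_apply]
    generalize x (tt j) = a
    generalize x (s 6) = b
    revert a b
    decide
  simp only [E2, h1]
  simp only [Pi.add_apply, Pi.one_apply]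
  generalize H _ = w
  generalize x (s 0) = x0
  generalize x (s 1) = x1
  generalize x (s 4) = x4
  generalize x (s 5) = x5
  revert x0 x1 x4 x5 w
  decide

theorem ph_compl (x : Cube (7 + k)) : ph (x + 1) = ph x + 1 := by
  simp only [ph, Pi.add_apply, Pi.one_apply]
  generalize x (s 0) = x0
  generalize x (s 2) = x1
  generalize x (s 4) = x4
  revert x0 x1 x4
  decide

/-- The code. -/
def Code (H : Cube k → ZMod 2) : Set (Cube (7 + k)) := {x | E1 x = 0 ∧ E2 H x = 0}

/-- Half of the code. -/
def half (H : Cube k → ZMod 2) : Finset (Cube (7 + k)) :=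
  univ.filter fun x => (E1 x = 0 ∧ E2 H x = 0) ∧ ph x = 0

theorem code_compl (hk : Odd k) {H : Cube k → ZMod 2} {x : Cube (7 + k)} (hx : x ∈ Code H) :
    x + 1 ∈ Code H := ⟨by rw [E1_compl hk]; exact hx.1, by rw [E2_compl]; exact hx.2⟩

theorem code_dist {H : Cube k → ZMod 2} {x y : Cube (7 + k)} (hx : x ∈ Code H) (hy : y ∈ Code H)
    (hxy : x ≠ y) : 2 ≤ hammingDist x y := by
  by_contra hlt
  have h1 : hammingDist x y ≠ 0 := by
    rw [Ne, hammingDist_eq_zero]
    exact hxy
  obtain ⟨i, rfl⟩ := dist_one (show hammingDist x y = 1 by omega)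
  have hE1 := E1_single x i
  rw [hx.1, hy.1] at hE1
  by_cases h0 : s 0 = i
  · subst h0
    have := E2_single H x 0 (by decide)
    rw [hx.2, hy.2] at this
    simp at this
  · by_cases h1 : s 1 = i
    · subst h1
      have := E2_single H x 1 (by decide)
      rw [hx.2, hy.2] at this
      simp at this
    · simp [h0, h1] at hE1

theorem code_le (hk : Odd k) {H : Cube k → ZMod 2} {x y : Cube (7 + k)} (hx : x ∈ Code H)
    (hy : y ∈ Code H) (hxy : y ≠ x + 1) : hammingDist x y ≤ 7 + k - 2 := by
  have h1 := code_dist (code_compl hk hx) hy (fun h => hxy h.symm)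
  have h2 := dist_compl x y
  omega

theorem dominate (H : Cube k → ZMod 2) {w : Cube (7 + k)} (hw : w ∉ Code H) :
    ∃ i, w + Pi.single i 1 ∈ half H := by
  have key : ∀ a : Fin 7, a ≠ 6 → (w + Pi.single (s a) 1 ∈ half H ↔
      ((E1 w + 1 + (if 0 = a then 1 else 0) + (if 1 = a then 1 else 0) = 0 ∧
      E2 H w + (if 0 = a ∨ 1 = a ∨ 4 = a ∨ 5 = a then 1 else 0) = 0) ∧
      ph w + (if 0 = a ∨ 2 = a ∨ 4 = a then 1 else 0) = 0)) := by
    intro a ha
    simp only [half, mem_filter, mem_univ, true_and, E1_single, E2_single H w a ha, ph_single,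
      s_inj]
  have hw' : ¬ (E1 w = 0 ∧ E2 H w = 0) := hw
  have : ∃ a : Fin 7, a ≠ 6 ∧ ((E1 w + 1 + (if 0 = a then 1 else 0) + (if 1 = a then 1 else 0) = 0 ∧
      E2 H w + (if 0 = a ∨ 1 = a ∨ 4 = a ∨ 5 = a then 1 else 0) = 0) ∧
      ph w + (if 0 = a ∨ 2 = a ∨ 4 = a then 1 else 0) = 0) := by
    revert hw'
    generalize E1 w = p
    generalize E2 H w = q
    generalize ph w = r
    revert p q r
    decide
  obtain ⟨a, ha, h⟩ := this
  exact ⟨s a, (key a ha).2 h⟩

/-- The half of the code is a maximal simplex of the complex of scale `n - 2`. -/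
theorem maximal (hk : Odd k) {H : Cube k → ZMod 2} {w : Cube (7 + k)} (hw : w ∉ half H) :
    ∃ x ∈ half H, 7 + k - 1 ≤ hammingDist w x := by
  have hcc : ∀ x, hammingDist w x + hammingDist (w + 1) x = 7 + k := by
    intro x
    have := dist_compl w x
    omega
  by_cases h : w + 1 ∈ Code H
  · refine ⟨w + 1, ?_, ?_⟩
    · have h1 : w ∈ Code H := by
        have := code_compl hk h
        rwa [add_one_one] at this
      have h2 : ph w ≠ 0 := by
        intro h2
        apply hw
        simp only [half, mem_filter, mem_univ, true_and]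
        exact ⟨h1, h2⟩
      simp only [half, mem_filter, mem_univ, true_and]
      refine ⟨h, ?_⟩
      rw [ph_compl]
      rcases z01 (ph w) with h3 | h3
      · exact absurd h3 h2
      · rw [h3]; rfl
    · have := hcc (w + 1)
      rw [hammingDist_self] at this
      omega
  · obtain ⟨i, hi⟩ := dominate H h
    refine ⟨_, hi, ?_⟩
    have := hcc (w + 1 + Pi.single i 1)
    rw [dist_single] at this
    omega

theorem halving {V : Type*} (A : Finset V) (f : V → V) (p : V → ZMod 2)
    (hf : ∀ x, f (f x) = x) (hA : ∀ x ∈ A, f x ∈ A) (hp : ∀ x ∈ A, p (f x) = p x + 1) :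
    2 * (A.filter fun x => p x = 0).card = A.card := by
  classical
  have h1 := Finset.card_filter_add_card_filter_not (s := A) (fun x => p x = 0)
  have h2 : (A.filter fun x => ¬ p x = 0).card = (A.filter fun x => p x = 0).card := by
    refine Finset.card_nbij' f f ?_ ?_ (fun x _ => hf x) (fun x _ => hf x)
    · intro x hx
      simp only [coe_filter, Set.mem_ofPred_eq] at hx ⊢
      refine ⟨hA x hx.1, ?_⟩
      rw [hp x hx.1]
      rcases z01 (p x) with h3 | h3
      · exact absurd h3 hx.2
      · rw [h3]; rfl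
    · intro x hx
      simp only [coe_filter, Set.mem_ofPred_eq] at hx ⊢
      refine ⟨hA x hx.1, ?_⟩
      rw [hp x hx.1, hx.2]
      decide
  omega

theorem single_invol (i : Fin (7 + k)) (x : Cube (7 + k)) :
    x + Pi.single i 1 + Pi.single i 1 = x := by
  funext j
  simp only [Pi.add_apply, Pi.single_apply]
  generalize x j = a
  split_ifs
  · exact zadd a
  · simp

theorem card_half (H : Cube k → ZMod 2) : (half H).card = 2 ^ (4 + k) := by
  classical
  have h1 := halving (univ : Finset (Cube (7 + k))) (fun x => x + Pi.single (s 3) 1) E1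
    (single_invol _) (fun _ _ => mem_univ _) (by
      intro x _
      rw [E1_single]
      simp [s_inj])
  have h2 := halving ((univ : Finset (Cube (7 + k))).filter fun x => E1 x = 0)
    (fun x => x + Pi.single (s 1) 1) (E2 H) (single_invol _) (by
      intro x hx
      simp only [mem_filter, mem_univ, true_and] at hx ⊢
      rw [E1_single, hx]
      simp [s_inj]
      decide) (by
      intro x _
      rw [E2_single H x 1 (by decide)]
      simp)
  have h3 := halving (((univ : Finset (Cube (7 + k))).filter fun x => E1 x = 0).filter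
      fun x => E2 H x = 0)
    (fun x => x + Pi.single (s 2) 1 + Pi.single (s 3) 1) ph (by
      intro x
      have : x + Pi.single (s 2) 1 + Pi.single (s 3) 1 + Pi.single (s 2) 1 + Pi.single (s 3) 1 =
          x + Pi.single (s 2) 1 + Pi.single (s 2) 1 + Pi.single (s 3) 1 +
            (Pi.single (s 3) 1 : Cube (7 + k)) := by abel
      show x + Pi.single (s 2) 1 + Pi.single (s 3) 1 + Pi.single (s 2) 1 + Pi.single (s 3) 1 = x
      rw [this, single_invol, single_invol]) (by
      intro x hx
      simp only [mem_filter, mem_univ, true_and] at hx ⊢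
      rw [E1_single, E1_single, hx.1, E2_single _ _ 3 (by decide), E2_single _ _ 2 (by decide),
        hx.2]
      simp only [s_inj]
      decide) (by
      intro x _
      show ph (x + Pi.single (s 2) 1 + Pi.single (s 3) 1) = _
      rw [ph_single, ph_single]
      simp)
  have h4 : half H = (((univ : Finset (Cube (7 + k))).filter fun x => E1 x = 0).filter
      fun x => E2 H x = 0).filter fun x => ph x = 0 := by
    ext x
    simp [half]
  rw [h4]
  have h5 : (univ : Finset (Cube (7 + k))).card = 2 ^ (7 + k) := by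
    rw [card_univ, Fintype.card_fun, ZMod.card, Fintype.card_fin]
  rw [h5] at h1
  have h6 : (2 : ℕ) ^ (7 + k) = 8 * 2 ^ (4 + k) := by
    rw [show 7 + k = 3 + (4 + k) by ring, pow_add]
    norm_num
  omega

theorem pull (x : Cube (7 + k)) (a : Fin 7) (ha : a ≠ 6) :
    (fun j : Fin k => (x + Pi.single (s a) 1 : Cube (7 + k)) (tt j) +
      (x + Pi.single (s a) 1 : Cube (7 + k)) (s 6)) = fun j => x (tt j) + x (s 6) := by
  funext j
  have h6 : ¬ ((6 : Fin 7) = a) := fun h => ha h.symm
  simp only [Pi.add_apply, Pi.single_apply, s_inj, h6, if_false, tt_ne_s, add_zero]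

/-- Different functions have different codes. -/
theorem sep {H H' : Cube k → ZMod 2} (hne : H ≠ H') : ∃ x ∈ half H, x ∉ Code H' := by
  obtain ⟨y, hy⟩ := Function.ne_iff.1 hne
  obtain ⟨x0, h01, h02⟩ : ∃ x : Cube (7 + k), (fun j => x (tt j) + x (s 6)) = y ∧ ph x = 0 := by
    refine ⟨Fin.append (0 : Fin 7 → ZMod 2) y, ?_, ?_⟩
    · funext j
      simp [tt, s]
    · simp only [ph, s, Fin.append_left]
      simp
  obtain ⟨x1, h11, h12, h13⟩ : ∃ x : Cube (7 + k), (fun j => x (tt j) + x (s 6)) = y ∧ ph x = 0 ∧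
      E1 x = 0 := by
    rcases z01 (E1 x0) with h | h
    · exact ⟨x0, h01, h02, h⟩
    · refine ⟨x0 + Pi.single (s 3) 1, ?_, ?_, ?_⟩
      · rw [pull _ _ (by decide), h01]
      · rw [ph_single, h02]; decide
      · rw [E1_single, h]; simp only [s_inj]; decide
  obtain ⟨x, h21, h22, h23, h24⟩ : ∃ x : Cube (7 + k), (fun j => x (tt j) + x (s 6)) = y ∧
      ph x = 0 ∧ E1 x = 0 ∧ E2 H x = 0 := by
    rcases z01 (E2 H x1) with h | h
    · exact ⟨x1, h11, h12, h13, h⟩
    · refine ⟨x1 + Pi.single (s 1) 1, ?_, ?_, ?_, ?_⟩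
      · rw [pull _ _ (by decide), h11]
      · rw [ph_single, h12]; decide
      · rw [E1_single, h13]; simp only [s_inj]; decide
      · rw [E2_single _ _ _ (by decide), h]; decide
  refine ⟨x, by simp [half, h22, h23, h24], ?_⟩
  rintro ⟨-, h3⟩
  simp only [E2, h21] at h24 h3
  apply hy
  have h5 := h24.trans h3.symm
  exact add_left_cancel h5

end code

end Pool.Agent.X177.Hyp14
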