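import Pool.Agent.X177.Hyp14.Rep
import Pool.Agent.X177.Hyp14.Cube

set_option autoImplicit false

/-!
The homology of the Vietoris-Rips complexes of the hypercube graphs as representations of the
hyperoctahedral groups.
-/

namespace Pool.Agent.X177.Hyp14

open Finset

section defs

variable (K : Type*) [Field K] (n r : ℕ)

/-- The functions on the `(i+1)`-tuples of vertices of the cube. -/
def Fun (i : ℕ) : Type _ := (Fin (i + 1) → Cube n) → K

instance instFunGroup (i : ℕ) : AddCommGroup (Fun K n i) := Pi.addCommGroup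

instance instFunModule (i : ℕ) : Module K (Fun K n i) := Pi.module _ _ _

instance instFunFinite (i : ℕ) : FiniteDimensional K (Fun K n i) :=
  inferInstanceAs (FiniteDimensional K ((Fin (i + 1) → Cube n) → K))

variable {K n} in
@[simp] theorem Fun.add_apply {i : ℕ} (f g : Fun K n i) (t : Fin (i + 1) → Cube n) :
    (f + g) t = f t + g t := rfl

variable {K n} in
@[simp] theorem Fun.smul_apply {i : ℕ} (c : K) (f : Fun K n i) (t : Fin (i + 1) → Cube n) :
    (c • f) t = c * f t := rfl

variable {K n} in
@[simp] theorem Fun.zero_apply {i : ℕ} (t : Fin (i + 1) → Cube n) :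
    (0 : Fun K n i) t = 0 := rfl

variable {K n} in
/-- `f` is an oriented `i`-chain of the complex `X^{n,r}`: it is an alternating function on the
`(i+1)`-tuples of vertices which vanishes on the tuples that are not the injective enumerations of
a simplex (a set of vertices with pairwise distances at most `r`). The oriented simplex
`[v_0, ..., v_i]` is the function which is `1` at the even and `-1` at the odd reorderings of
`(v_0, ..., v_i)`. -/
def IsChain {i : ℕ} (f : Fun K n i) : Prop :=
  (∀ t, f t ≠ 0 → Function.Injective t ∧ ∀ j k, hammingDist (t j) (t k) ≤ r) ∧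
    ∀ (π : Equiv.Perm (Fin (i + 1))) t, f (t ∘ π) = ((Equiv.Perm.sign π : ℤ) : K) * f t

variable {K n} in
theorem isChain_add {i : ℕ} {f g : Fun K n i} (hf : IsChain r f)
    (hg : IsChain r g) : IsChain r (f + g) := by
  obtain ⟨hf1, hf2⟩ := hf
  obtain ⟨hg1, hg2⟩ := hg
  refine ⟨?_, ?_⟩
  · intro t ht
    by_cases h : f t = 0
    · apply hg1 t
      intro h'
      exact ht (by simp [h, h'])
    · exact hf1 t h
  · intro π t
    simp only [Fun.add_apply, hf2, hg2, mul_add]

variable {K n} in
theorem isChain_zero {i : ℕ} : IsChain r (0 : Fun K n i) :=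
  ⟨fun _ ht => absurd rfl ht, fun π t => by simp⟩

variable {K n} in
theorem isChain_smul {i : ℕ} (c : K) {f : Fun K n i} (hf : IsChain r f) :
    IsChain r (c • f) := by
  obtain ⟨hf1, hf2⟩ := hf
  refine ⟨?_, ?_⟩
  · intro t ht
    apply hf1 t
    intro h'
    exact ht (by simp [h'])
  · intro π t
    simp only [Fun.smul_apply, hf2]
    ring

/-- The oriented `i`-chains of the complex `X^{n,r}`. -/
def chains (i : ℕ) : Submodule K (Fun K n i) where
  carrier := {f | IsChain r f}
  add_mem' := isChain_add r
  zero_mem' := isChain_zero r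
  smul_mem' c _ hf := isChain_smul r c hf

variable {K n} in
/-- The boundary of a function on tuples:
`(∂ f) (v_1, ..., v_i) = ∑ v, f (v, v_1, ..., v_i)`; on chains this is the usual
`∂ [v_0, ..., v_i] = ∑ j, (-1)^j [v_0, ..., v_j omitted, ..., v_i]`. -/
def bd {i : ℕ} (f : Fun K n (i + 1)) : Fun K n i :=
  fun t => ∑ v : Cube n, f (Fin.cons v t)

variable {K n} in
theorem bd_add {i : ℕ} (f g : Fun K n (i + 1)) : bd (f + g) = bd f + bd g := by
  funext t
  simp [bd, Finset.sum_add_distrib]

variable {K n} in
theorem bd_smul {i : ℕ} (c : K) (f : Fun K n (i + 1)) : bd (c • f) = c • bd f := by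
  funext t
  simp [bd, Finset.mul_sum]

/-- The boundary map. -/
def bdry (i : ℕ) : Fun K n (i + 1) →ₗ[K] Fun K n i where
  toFun := bd
  map_add' := bd_add
  map_smul' := bd_smul

/-- The `i`-cycles of `X^{n,r}`. -/
def cycles : (i : ℕ) → Submodule K (Fun K n i)
  | 0 => chains K n r 0
  | i + 1 => chains K n r (i + 1) ⊓ LinearMap.ker (bdry K n i)

/-- The `i`-boundaries of `X^{n,r}`. -/
def boundaries (i : ℕ) : Submodule K (Fun K n i) :=
  (chains K n r (i + 1)).map (bdry K n i)

variable {n} in
/-- `g` permutes the coordinates and flips the values of some coordinates. -/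
def IsSigned (g : Equiv.Perm (Cube n)) : Prop :=
  ∃ (π : Equiv.Perm (Fin n)) (c : Cube n), ∀ x i, g x i = x (π i) + c i

variable {n} in
theorem isSigned_mul {g h : Equiv.Perm (Cube n)} (hg : IsSigned g) (hh : IsSigned h) :
    IsSigned (g * h) := by
  obtain ⟨π, c, hg⟩ := hg
  obtain ⟨π', c', hh⟩ := hh
  refine ⟨π' * π, fun i => c' (π i) + c i, fun x i => ?_⟩
  show g (h x) i = _
  rw [hg, hh]
  simp only [Equiv.Perm.mul_apply]
  ring

variable {n} in
theorem isSigned_one : IsSigned (1 : Equiv.Perm (Cube n)) := ⟨1, 0, fun x i => by simp⟩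

variable {n} in
theorem isSigned_inv {g : Equiv.Perm (Cube n)} (hg : IsSigned g) : IsSigned g⁻¹ := by
  obtain ⟨π, c, hg⟩ := hg
  refine ⟨π⁻¹, fun i => c (π⁻¹ i), fun x i => ?_⟩
  obtain ⟨y, rfl⟩ := g.surjective x
  show g.symm (g y) i = g y (π.symm i) + c (π.symm i)
  rw [Equiv.symm_apply_apply, hg, Equiv.apply_symm_apply]
  generalize c (π.symm i) = b
  generalize y i = a
  revert a b
  decide

/-- The hyperoctahedral group: the permutations of the vertices of the cube which permute the
coordinates and flip the values of some coordinates. -/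
def hyperoctahedral : Subgroup (Equiv.Perm (Cube n)) where
  carrier := {g | IsSigned g}
  mul_mem' := isSigned_mul
  one_mem' := isSigned_one
  inv_mem' := isSigned_inv

/-- The hyperoctahedral group as a type. -/
def HypGroup : Type := hyperoctahedral n

instance instHypGroup : Group (HypGroup n) := Subgroup.toGroup (hyperoctahedral n)

instance instHypFinite : Finite (HypGroup n) := inferInstanceAs (Finite (hyperoctahedral n))

/-- The action of a permutation of the vertices on the functions on tuples of vertices. -/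
def tr (i : ℕ) (g : Equiv.Perm (Cube n)) : Fun K n i →ₗ[K] Fun K n i where
  toFun f := fun t => f (g.symm ∘ t)
  map_add' _ _ := rfl
  map_smul' _ _ := rfl

theorem tr_one (i : ℕ) : tr K n i 1 = 1 := rfl

theorem tr_mul (i : ℕ) (g h : Equiv.Perm (Cube n)) : tr K n i (g * h) = tr K n i g * tr K n i h := by
  apply LinearMap.ext
  intro f
  funext t
  rfl

/-- The action of the hyperoctahedral group on the functions on tuples of vertices: the one which
sends the oriented simplex `[v_0, ..., v_i]` to `[g v_0, ..., g v_i]`. -/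
def act (i : ℕ) : Representation K (HypGroup n) (Fun K n i) where
  toFun g := tr K n i g.1
  map_one' := tr_one K n i
  map_mul' g h := tr_mul K n i g.1 h.1

variable {K n r}

theorem dist_act {g : Equiv.Perm (Cube n)} (hg : IsSigned g) (x y : Cube n) :
    hammingDist (g x) (g y) = hammingDist x y := by
  obtain ⟨π, c, h⟩ := hg
  simp only [hammingDist, h]
  refine Finset.card_bij' (fun i _ => π i) (fun i _ => π⁻¹ i) ?_ ?_ ?_ ?_
  · intro i hi
    simpa using hi
  · intro i hi
    simpa using hi
  · intro i _
    simp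
  · intro i _
    simp

theorem act_mem_chains (i : ℕ) (g : HypGroup n) {f : Fun K n i}
    (hf : f ∈ chains K n r i) : act K n i g f ∈ chains K n r i := by
  refine ⟨?_, ?_⟩
  · intro t ht
    obtain ⟨h1, h2⟩ := hf.1 _ ht
    refine ⟨?_, ?_⟩
    · intro a b hab
      apply h1
      show g.1.symm (t a) = g.1.symm (t b)
      rw [hab]
    · intro a b
      rw [← dist_act (isSigned_inv g.2) (t a) (t b)]
      exact h2 a b
  · intro π t
    exact hf.2 π (g.1.symm ∘ t)

theorem bdry_act (i : ℕ) (g : HypGroup n) (f : Fun K n (i + 1)) :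
    bdry K n i (act K n (i + 1) g f) = act K n i g (bdry K n i f) := by
  funext t
  show ∑ v, f (g.1.symm ∘ (Fin.cons v t : Fin (i + 2) → Cube n)) =
    ∑ v, f (Fin.cons v (g.1.symm ∘ t))
  rw [← Equiv.sum_comp g.1.symm (fun v => f (Fin.cons v (g.1.symm ∘ t)))]
  refine Finset.sum_congr rfl fun v _ => ?_
  congr 1
  funext j
  refine Fin.cases ?_ (fun j => ?_) j
  · rfl
  · rfl

theorem act_mem_cycles (i : ℕ) (g : HypGroup n) {f : Fun K n i}
    (hf : f ∈ cycles K n r i) : act K n i g f ∈ cycles K n r i := by
  cases i with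
  | zero => exact act_mem_chains 0 g hf
  | succ i =>
    refine ⟨act_mem_chains _ g hf.1, ?_⟩
    have h1 : bdry K n i f = 0 := hf.2
    show bdry K n i (act K n (i + 1) g f) = 0
    rw [bdry_act, h1, map_zero]

theorem act_mem_boundaries (i : ℕ) (g : HypGroup n) {f : Fun K n i}
    (hf : f ∈ boundaries K n r i) : act K n i g f ∈ boundaries K n r i := by
  obtain ⟨h, hh, rfl⟩ := hf
  exact ⟨act K n (i + 1) g h, act_mem_chains _ g hh, bdry_act i g h⟩

variable (K n r)

/-- The space of `i`-cycles as a type. -/
def Cyc (i : ℕ) : Type _ := cycles K n r i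

instance instCycGroup (i : ℕ) : AddCommGroup (Cyc K n r i) :=
  Submodule.addCommGroup (cycles K n r i)

instance instCycModule (i : ℕ) : Module K (Cyc K n r i) :=
  Submodule.module (cycles K n r i)

instance instCycFinite (i : ℕ) : FiniteDimensional K (Cyc K n r i) :=
  inferInstanceAs (FiniteDimensional K (cycles K n r i))

/-- The action of the hyperoctahedral group on the cycles. -/
def cycAct (i : ℕ) (g : HypGroup n) : Cyc K n r i →ₗ[K] Cyc K n r i :=
  (act K n i g).restrict fun _ hf => act_mem_cycles i g hf

theorem cycAct_one (i : ℕ) : cycAct K n r i 1 = 1 := by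
  apply LinearMap.ext
  intro f
  rfl

theorem cycAct_mul (i : ℕ) (g h : HypGroup n) :
    cycAct K n r i (g * h) = cycAct K n r i g * cycAct K n r i h := by
  apply LinearMap.ext
  intro f
  apply Subtype.ext
  show act K n i (g * h) f.1 = act K n i g (act K n i h f.1)
  rw [map_mul]
  rfl

/-- The representation of the hyperoctahedral group on the cycles. -/
def cyclesRep (i : ℕ) : Representation K (HypGroup n) (Cyc K n r i) where
  toFun g := cycAct K n r i g
  map_one' := cycAct_one K n r i
  map_mul' g h := cycAct_mul K n r i g h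

/-- The boundaries as a subspace of the space of cycles. -/
def bdryOfCyc (i : ℕ) : Submodule K (Cyc K n r i) :=
  (boundaries K n r i).submoduleOf (cycles K n r i)

theorem bdryOfCyc_le (i : ℕ) (g : HypGroup n) :
    bdryOfCyc K n r i ≤ (bdryOfCyc K n r i).comap (cyclesRep K n r i g) :=
  fun _ hx => act_mem_boundaries i g hx

/-- The homology `H_i(X^{n,r}; K)`. -/
def Homology (i : ℕ) : Type _ := Cyc K n r i ⧸ bdryOfCyc K n r i

instance instHomologyGroup (i : ℕ) : AddCommGroup (Homology K n r i) :=
  Submodule.Quotient.addCommGroup (bdryOfCyc K n r i)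

instance instHomologyModule (i : ℕ) : Module K (Homology K n r i) :=
  Submodule.Quotient.module (bdryOfCyc K n r i)

instance instHomologyFinite (i : ℕ) : FiniteDimensional K (Homology K n r i) :=
  inferInstanceAs (FiniteDimensional K (Cyc K n r i ⧸ bdryOfCyc K n r i))

/-- The representation of the hyperoctahedral group on the homology `H_i(X^{n,r}; K)`. -/
def homologyRep (i : ℕ) : Representation K (HypGroup n) (Homology K n r i) :=
  (cyclesRep K n r i).quotient (bdryOfCyc K n r i) (bdryOfCyc_le K n r i)

end defs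

section check

variable {K : Type*} [Field K] {n r : ℕ}

/-- The boundary of a chain is a chain. -/
theorem bdry_mem (i : ℕ) {f : Fun K n (i + 1)} (hf : f ∈ chains K n r (i + 1)) :
    bdry K n i f ∈ chains K n r i := by
  refine ⟨?_, ?_⟩
  · intro t ht
    obtain ⟨v, -, hv⟩ := Finset.exists_ne_zero_of_sum_ne_zero ht
    obtain ⟨h1, h2⟩ := hf.1 _ hv
    refine ⟨?_, ?_⟩
    · intro a b hab
      have : (Fin.cons v t : Fin (i + 2) → Cube n) a.succ =
        (Fin.cons v t : Fin (i + 2) → Cube n) b.succ := hab
      exact Fin.succ_injective _ (h1 this)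
    · intro a b
      exact h2 a.succ b.succ
  · intro π t
    show ∑ v, f (Fin.cons v (t ∘ π)) = _ * ∑ v, f (Fin.cons v t)
    rw [Finset.mul_sum]
    refine Finset.sum_congr rfl fun v _ => ?_
    have h1 := hf.2 (Equiv.Perm.decomposeFin.symm (0, π)) (Fin.cons v t)
    rw [Equiv.Perm.decomposeFin.symm_sign] at h1
    simp only [if_true, one_mul] at h1
    rw [← h1]
    congr 1
    funext j
    refine Fin.cases ?_ (fun j => ?_) j
    · simp
    · simp

/-- The boundary of a boundary is zero. -/
theorem bdry_bdry [CharZero K] (i : ℕ) {f : Fun K n (i + 2)}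
    (hf : f ∈ chains K n r (i + 2)) : bdry K n i (bdry K n (i + 1) f) = 0 := by
  funext t
  show ∑ v, ∑ w, f (Fin.cons w (Fin.cons v t)) = 0
  have h1 : ∀ v w : Cube n, f (Fin.cons w (Fin.cons v t)) = - f (Fin.cons v (Fin.cons w t)) := by
    intro v w
    have h2 := hf.2 (Equiv.swap 0 1) (Fin.cons v (Fin.cons w t))
    rw [Equiv.Perm.sign_swap (by simp)] at h2
    simp only [Units.val_neg, Units.val_one, Int.cast_neg, Int.cast_one, neg_mul, one_mul] at h2
    rw [← h2]
    congr 1
    funext j
    refine Fin.cases ?_ (fun j => Fin.cases ?_ (fun j => ?_) j) j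
    · simp
    · show v = (Fin.cons v (Fin.cons w t) : Fin (i + 3) → Cube n) (Equiv.swap 0 1 1)
      simp
    · show t j = (Fin.cons v (Fin.cons w t) : Fin (i + 3) → Cube n) (Equiv.swap 0 1 j.succ.succ)
      rw [Equiv.swap_apply_of_ne_of_ne]
      · rfl
      · exact Fin.succ_ne_zero _
      · intro h
        have := congrArg Fin.val h
        simp at this
  have h3 : ∑ v, ∑ w, f (Fin.cons w (Fin.cons v t)) = -∑ v, ∑ w, f (Fin.cons w (Fin.cons v t)) := by
    conv_lhs => rw [Finset.sum_comm]
    rw [← Finset.sum_neg_distrib]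
    refine Finset.sum_congr rfl fun v _ => ?_
    rw [← Finset.sum_neg_distrib]
    refine Finset.sum_congr rfl fun w _ => ?_
    rw [h1]
  have h4 : (2 : K) * ∑ v, ∑ w, f (Fin.cons w (Fin.cons v t)) = 0 := by
    rw [two_mul]
    nth_rewrite 1 [h3]
    simp
  exact (mul_eq_zero.1 h4).resolve_left two_ne_zero

/-- Boundaries are cycles. -/
theorem boundaries_le_cycles [CharZero K] (i : ℕ) : boundaries K n r i ≤ cycles K n r i := by
  rintro _ ⟨f, hf, rfl⟩
  cases i with
  | zero => exact bdry_mem 0 hf
  | succ i => exact ⟨bdry_mem _ hf, bdry_bdry i hf⟩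

end check

end Pool.Agent.X177.Hyp14
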