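import Pool.Agent.X177.Hyp14.Homology

set_option autoImplicit false

/-!
The homology of the complexes `X^{n,n-2}`, `n ≥ 14` even, in degree `2 ^ (n - 3) - 1` is not
multiplicity-free.
-/

namespace Pool.Agent.X177.Hyp14

open Finset Module

section group

theorem card_hyperoctahedral (n : ℕ) :
    Nat.card (HypGroup n) ≤ n.factorial * 2 ^ n := by
  classical
  choose π c h using fun g : HypGroup n => (g.2 : IsSigned g.1)
  have hinj : Function.Injective fun g : hyperoctahedral n => (π g, c g) := by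
    intro g g' hgg
    simp only [Prod.mk.injEq] at hgg
    apply Subtype.ext
    apply Equiv.ext
    intro x
    funext i
    rw [h g x i, h g' x i, hgg.1, hgg.2]
  have h1 := Nat.card_le_card_of_injective _ hinj
  have h2 : Nat.card (Equiv.Perm (Fin n) × Cube n) = n.factorial * 2 ^ n := by
    rw [Nat.card_prod, Nat.card_perm]
    simp
  exact h1.trans h2.le

theorem size (k : ℕ) (hk : 7 ≤ k) : (7 + k).factorial * 2 ^ (7 + k) < 2 ^ (2 ^ k) := by
  induction k, hk using Nat.le_induction with
  | base => norm_num [Nat.factorial]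
  | succ k hk ih =>
    have h1 : 8 + k < 2 ^ (6 + k) := by
      have : k < 2 ^ k := Nat.lt_two_pow_self
      have h2 : 2 ^ (6 + k) = 64 * 2 ^ k := by rw [pow_add]; norm_num
      omega
    have h2 : 2 ^ (7 + k) = 2 * 2 ^ (6 + k) := by
      rw [show 7 + k = (6 + k) + 1 by ring, pow_succ]; ring
    have h3 : 2 * (8 + k) ≤ 2 ^ (2 ^ k) := by
      have h4 : 2 ^ (7 + k) ≤ (7 + k).factorial * 2 ^ (7 + k) :=
        Nat.le_mul_of_pos_left _ (Nat.factorial_pos _)
      omega
    have h5 : (7 + (k + 1)).factorial * 2 ^ (7 + (k + 1)) =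
        ((7 + k).factorial * 2 ^ (7 + k)) * (2 * (8 + k)) := by
      rw [show 7 + (k + 1) = (7 + k) + 1 by ring, Nat.factorial_succ, pow_succ]
      ring
    have h6 : (2 : ℕ) ^ (2 ^ (k + 1)) = 2 ^ (2 ^ k) * 2 ^ (2 ^ k) := by
      rw [← pow_add, pow_succ]; ring_nf
    rw [h5, h6]
    exact Nat.mul_lt_mul_of_lt_of_le ih h3 (by positivity)

end group

section classes

variable {K : Type*} [Field K] {k i : ℕ}

/-- An enumeration of the half of a code. -/
noncomputable def pt (hi : i + 2 = 2 ^ (4 + k)) (H : Cube k → ZMod 2) (j : Fin (i + 2)) :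
    Cube (7 + k) :=
  ((Finset.equivFinOfCardEq ((card_half H).trans hi.symm)).symm j).1

theorem pt_mem (hi : i + 2 = 2 ^ (4 + k)) (H : Cube k → ZMod 2) (j : Fin (i + 2)) :
    pt hi H j ∈ half H := ((Finset.equivFinOfCardEq ((card_half H).trans hi.symm)).symm j).2

theorem pt_inj (hi : i + 2 = 2 ^ (4 + k)) (H : Cube k → ZMod 2) :
    Function.Injective (pt hi H) :=
  Subtype.val_injective.comp
    (Finset.equivFinOfCardEq ((card_half H).trans hi.symm)).symm.injective

theorem pt_surj (hi : i + 2 = 2 ^ (4 + k)) (H : Cube k → ZMod 2) {x : Cube (7 + k)}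
    (hx : x ∈ half H) : ∃ j, pt hi H j = x := by
  obtain ⟨j, hj⟩ :=
    (Finset.equivFinOfCardEq ((card_half H).trans hi.symm)).symm.surjective ⟨x, hx⟩
  exact ⟨j, congrArg Subtype.val hj⟩

theorem pt_code (hi : i + 2 = 2 ^ (4 + k)) (H : Cube k → ZMod 2) (j : Fin (i + 2)) :
    pt hi H j ∈ Code H := by
  have := pt_mem hi H j
  simp only [half, mem_filter, mem_univ, true_and] at this
  exact this.1

theorem pt_ph (hi : i + 2 = 2 ^ (4 + k)) (H : Cube k → ZMod 2) (j : Fin (i + 2)) :
    ph (pt hi H j) = 0 := by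
  have := pt_mem hi H j
  simp only [half, mem_filter, mem_univ, true_and] at this
  exact this.2

/-- The vector of a vertex. -/
noncomputable def vec (K : Type*) [Field K] (hi : i + 2 = 2 ^ (4 + k)) (H : Cube k → ZMod 2)
    (v : Cube (7 + k)) : Fin (i + 2) → K :=
  fun j => (if v = pt hi H j then 1 else 0) - (if v = pt hi H j + 1 then 1 else 0)

theorem vec_eq_zero (hk : Odd k) (hi : i + 2 = 2 ^ (4 + k)) {H : Cube k → ZMod 2}
    {v : Cube (7 + k)} (hv : v ∉ Code H) : vec K hi H v = 0 := by
  funext j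
  have h1 : v ≠ pt hi H j := by
    rintro rfl
    exact hv (pt_code hi H j)
  have h2 : v ≠ pt hi H j + 1 := by
    rintro rfl
    exact hv (code_compl hk (pt_code hi H j))
  simp [vec, h1, h2]

theorem vec_compl (hi : i + 2 = 2 ^ (4 + k)) (H : Cube k → ZMod 2) (v : Cube (7 + k)) :
    vec K hi H (v + 1) = - vec K hi H v := by
  funext j
  have h1 : v + 1 = pt hi H j ↔ v = pt hi H j + 1 := by
    constructor
    · intro h
      rw [← h, add_one_one]
    · rintro rfl
      exact add_one_one _
  have h2 : v + 1 = pt hi H j + 1 ↔ v = pt hi H j := by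
    constructor
    · intro h
      exact add_right_cancel h
    · rintro rfl
      rfl
  simp only [vec, h1, h2, Pi.neg_apply]
  ring

theorem vec_sum (hi : i + 2 = 2 ^ (4 + k)) (H : Cube k → ZMod 2) :
    ∑ v, vec K hi H v = 0 := by
  funext j
  rw [Finset.sum_apply]
  simp [vec, Finset.sum_sub_distrib]

/-- The cycle of the cross-polytope of a code. -/
noncomputable def cyc (K : Type*) [Field K] (hi : i + 2 = 2 ^ (4 + k)) (H : Cube k → ZMod 2) :
    Fun K (7 + k) (i + 1) :=
  fun t => Matrix.detRowAlternating (fun a => vec K hi H (t a))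

theorem cyc_mem_chains (hk : Odd k) (hi : i + 2 = 2 ^ (4 + k)) (H : Cube k → ZMod 2) :
    cyc K hi H ∈ chains K (7 + k) (7 + k - 2) (i + 1) := by
  refine ⟨?_, ?_⟩
  · intro t ht
    have hinj : Function.Injective t := by
      intro a b hab
      by_contra hne
      apply ht
      exact AlternatingMap.map_eq_zero_of_eq _ _ (congrArg (vec K hi H) hab) hne
    refine ⟨hinj, ?_⟩
    have hcode : ∀ a, t a ∈ Code H := by
      intro a
      by_contra h
      apply ht
      exact AlternatingMap.map_coord_zero _ a (vec_eq_zero hk hi h)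
    intro a b
    by_cases hab : a = b
    · subst hab
      rw [hammingDist_self]
      exact Nat.zero_le _
    · refine code_le hk (hcode a) (hcode b) ?_
      intro hanti
      apply ht
      set m : Fin (i + 2) → (Fin (i + 2) → K) := fun a => vec K hi H (t a) with hm
      have h1 : m b = - m a := by
        simp only [hm]
        rw [hanti, vec_compl]
      have h2 : m = Function.update m b (- m a) := by
        rw [← h1, Function.update_eq_self]
      show Matrix.detRowAlternating m = 0
      rw [h2, AlternatingMap.map_update_neg]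
      have h3 : Matrix.detRowAlternating (Function.update m b (m a)) = (0 : K) := by
        refine AlternatingMap.map_eq_zero_of_eq _ _ (i := a) (j := b) ?_ hab
        rw [Function.update_self, Function.update_of_ne hab]
      rw [h3, neg_zero]
  · intro π t
    have := AlternatingMap.map_perm (Matrix.detRowAlternating (R := K) (n := Fin (i + 2)))
      (fun a => vec K hi H (t a)) π
    rw [Units.smul_def, zsmul_eq_mul] at this
    exact this

theorem cyc_mem_cycles (hk : Odd k) (hi : i + 2 = 2 ^ (4 + k)) (H : Cube k → ZMod 2) :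
    cyc K hi H ∈ cycles K (7 + k) (7 + k - 2) (i + 1) := by
  refine ⟨cyc_mem_chains hk hi H, ?_⟩
  show bdry K (7 + k) i (cyc K hi H) = 0
  funext t
  show ∑ v, Matrix.detRowAlternating
    (fun a => vec K hi H ((Fin.cons v t : Fin (i + 2) → Cube (7 + k)) a)) = 0
  have h1 : ∀ v : Cube (7 + k), Matrix.detRowAlternating
      (fun a => vec K hi H ((Fin.cons v t : Fin (i + 2) → Cube (7 + k)) a)) =
      (Matrix.detRowAlternating (R := K) (n := Fin (i + 2))).toMultilinearMap.curryLeft
        (vec K hi H v) (fun a => vec K hi H (t a)) := by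
    intro v
    rw [MultilinearMap.curryLeft_apply]
    show Matrix.detRowAlternating _ = Matrix.detRowAlternating _
    congr 1
    funext a
    refine Fin.cases ?_ (fun a => ?_) a
    · rfl
    · rfl
  rw [Finset.sum_congr rfl fun v _ => h1 v]
  rw [← _root_.sum_apply, ← map_sum, vec_sum, map_zero]
  rfl

theorem cyc_self (hi : i + 2 = 2 ^ (4 + k)) (H : Cube k → ZMod 2) :
    cyc K hi H (pt hi H) = 1 := by
  have h1 : (fun a => vec K hi H (pt hi H a)) = (1 : Matrix (Fin (i + 2)) (Fin (i + 2)) K) := by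
    funext a b
    have h2 : pt hi H a ≠ pt hi H b + 1 := by
      intro h
      have h3 := pt_ph hi H a
      rw [h, ph_compl, pt_ph] at h3
      exact absurd h3 (by decide)
    simp only [vec, (pt_inj hi H).eq_iff, h2, if_false, sub_zero, Matrix.one_apply]
  show Matrix.detRowAlternating _ = 1
  rw [h1]
  exact Matrix.det_one

theorem cyc_ne (hk : Odd k) (hi : i + 2 = 2 ^ (4 + k)) {H H' : Cube k → ZMod 2} (h : H ≠ H') :
    cyc K hi H' (pt hi H) = 0 := by
  obtain ⟨x, hx, hx'⟩ := sep h
  obtain ⟨a, rfl⟩ := pt_surj hi H hx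
  exact AlternatingMap.map_coord_zero _ a (vec_eq_zero hk hi hx')

theorem boundary_pt (hk : Odd k) (hi : i + 2 = 2 ^ (4 + k)) (H : Cube k → ZMod 2)
    {f : Fun K (7 + k) (i + 1)}
    (hf : f ∈ boundaries K (7 + k) (7 + k - 2) (i + 1)) : f (pt hi H) = 0 := by
  obtain ⟨h, hh, rfl⟩ := hf
  show ∑ v, h (Fin.cons v (pt hi H)) = 0
  refine Finset.sum_eq_zero fun v _ => ?_
  by_contra hne
  obtain ⟨h1, h2⟩ := hh.1 _ hne
  have h3 : v ∉ half H := by
    intro hv
    obtain ⟨a, ha⟩ := pt_surj hi H hv
    have h4 : (Fin.cons v (pt hi H) : Fin (i + 3) → Cube (7 + k)) 0 =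
        (Fin.cons v (pt hi H) : Fin (i + 3) → Cube (7 + k)) a.succ := ha.symm
    exact absurd (h1 h4) (Fin.succ_ne_zero a).symm
  obtain ⟨x, hx, hd⟩ := maximal hk h3
  obtain ⟨a, rfl⟩ := pt_surj hi H hx
  have h5 : hammingDist v (pt hi H a) ≤ 7 + k - 2 := h2 0 a.succ
  omega

/-- The homology has dimension at least `2 ^ 2 ^ k`. -/
theorem le_finrank (hk : Odd k) (hi : i + 2 = 2 ^ (4 + k)) :
    2 ^ (2 ^ k) ≤ finrank K (Homology K (7 + k) (7 + k - 2) (i + 1)) := by
  classical
  let Λ0 : Cyc K (7 + k) (7 + k - 2) (i + 1) →ₗ[K] ((Cube k → ZMod 2) → K) :=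
    { toFun := fun f H => f.1 (pt hi H)
      map_add' := fun _ _ => rfl
      map_smul' := fun _ _ => rfl }
  have hΛ0 : bdryOfCyc K (7 + k) (7 + k - 2) (i + 1) ≤ LinearMap.ker Λ0 := by
    intro f hf
    rw [LinearMap.mem_ker]
    funext H
    exact boundary_pt hk hi H hf
  let Λ : Homology K (7 + k) (7 + k - 2) (i + 1) →ₗ[K] ((Cube k → ZMod 2) → K) :=
    Submodule.liftQ (bdryOfCyc K (7 + k) (7 + k - 2) (i + 1)) Λ0 hΛ0
  have hsurj : Function.Surjective Λ := by
    intro c
    let e : (Cube k → ZMod 2) → Cyc K (7 + k) (7 + k - 2) (i + 1) :=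
      fun H => ⟨cyc K hi H, cyc_mem_cycles hk hi H⟩
    refine ⟨Submodule.Quotient.mk (∑ H, c H • e H), ?_⟩
    show Λ0 (∑ H, c H • e H) = c
    rw [map_sum]
    funext H
    rw [Finset.sum_apply]
    rw [Finset.sum_eq_single H]
    · rw [map_smul]
      show c H * cyc K hi H (pt hi H) = c H
      rw [cyc_self, mul_one]
    · intro H' _ hne
      rw [map_smul]
      show c H' * cyc K hi H' (pt hi H) = 0
      rw [cyc_ne hk hi hne.symm, mul_zero]
    · intro h
      exact absurd (mem_univ _) h
  have h1 := LinearMap.finrank_le_finrank_of_surjective hsurj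
  have h2 : finrank K ((Cube k → ZMod 2) → K) = 2 ^ (2 ^ k) := by
    rw [finrank_fintype_fun_eq_card, Fintype.card_fun, Fintype.card_fun, ZMod.card,
      Fintype.card_fin]
  rw [h2] at h1
  exact h1

end classes

/-- For even `n ≥ 14` the representation of the hyperoctahedral group on
`H_i(X^{n,n-2}; K)`, `i = 2 ^ (n - 3) - 1`, is not multiplicity-free. -/
theorem main (K : Type*) [Field K] [CharZero K] (n : ℕ) (hn : 14 ≤ n)
    (he : Even n) : ¬ MultiplicityFree (homologyRep K n (n - 2) (2 ^ (n - 3) - 1)) ∧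
      2 ^ (2 ^ (n - 7)) ≤ finrank K (Homology K n (n - 2) (2 ^ (n - 3) - 1)) := by
  obtain ⟨k, rfl⟩ := Nat.exists_eq_add_of_le (show 7 ≤ n by omega)
  have hk : Odd k := by
    rcases Nat.even_or_odd k with h | h
    · exfalso
      have := he
      rw [Nat.even_add] at this
      exact absurd (this.2 h) (by decide)
    · exact h
  obtain ⟨i, hi⟩ : ∃ i, 2 ^ (7 + k - 3) - 1 = i + 1 := by
    have : 2 ^ 1 ≤ 2 ^ (7 + k - 3) := Nat.pow_le_pow_right (by norm_num) (by omega)
    exact ⟨2 ^ (7 + k - 3) - 2, by omega⟩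
  have hi' : i + 2 = 2 ^ (4 + k) := by
    have h1 : 7 + k - 3 = 4 + k := by omega
    rw [h1] at hi
    have : 0 < 2 ^ (4 + k) := by positivity
    omega
  have h0 : 7 + k - 7 = k := by omega
  rw [hi, h0]
  have h2 := le_finrank (K := K) hk hi'
  refine ⟨?_, h2⟩
  intro h
  have h1 := finrank_le (homologyRep K (7 + k) (7 + k - 2) (i + 1)) h
  have h3 := card_hyperoctahedral (7 + k)
  have h4 := size k (by omega)
  omega

end Pool.Agent.X177.Hyp14
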