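import Mathlib

set_option autoImplicit false

namespace Pool.Agent.X177.Hyp14

open Representation Module
open scoped MonoidAlgebra

/-- A representation is multiplicity-free if no irreducible representation occurs more than once in
it: any subrepresentation which is isomorphic to an irreducible subrepresentation `S` is equal to
`S`. -/
def MultiplicityFree {K G V : Type*} [Field K] [Group G] [AddCommGroup V] [Module K V]
    (ρ : Representation K G V) : Prop :=
  ∀ S T : Subrepresentation ρ, S.toRepresentation.IsIrreducible →
    Nonempty (S.toRepresentation.Equiv T.toRepresentation) → S = T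

/-- A semisimple Noetherian module in which isomorphic simple submodules are equal is cyclic. -/
theorem cyclic {A M : Type*} [Ring A] [AddCommGroup M] [Module A M] [IsSemisimpleModule A M]
    [IsNoetherian A M]
    (h : ∀ S T : Submodule A M, IsSimpleModule A S → Nonempty (S ≃ₗ[A] T) → S = T) :
    ∃ v : M, Submodule.span A {v} = ⊤ := by
  obtain ⟨N, ⟨v, rfl⟩, hv⟩ := (wellFounded_gt (α := Submodule A M)).has_min
    (Set.range fun v : M => Submodule.span A {v}) ⟨_, 0, rfl⟩
  refine ⟨v, ?_⟩
  by_contra hne
  obtain ⟨C, hC⟩ := exists_isCompl (Submodule.span A {v})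
  have hC0 : C ≠ ⊥ := by
    rintro rfl
    exact hne (by simpa using hC.sup_eq_top)
  obtain ⟨S, hS, hSC⟩ := (IsAtomic.eq_bot_or_exists_atom_le C).resolve_left hC0
  have hSs : IsSimpleModule A S := isSimpleModule_iff_isAtom.2 hS
  obtain ⟨s, hs, hs0⟩ := (Submodule.ne_bot_iff S).1 hS.1
  set w := v + s with hw
  set P := Submodule.span A {w} with hP
  have hwP : w ∈ P := Submodule.mem_span_singleton_self w
  have hv1 : v ∈ Submodule.span A {v} := Submodule.mem_span_singleton_self v
  -- the projection on `C`
  let π := C.projectionOnto (Submodule.span A {v}) hC.symm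
  have hπ : π w = ⟨s, hSC hs⟩ := by
    have h1 : π v = 0 := Submodule.projectionOnto_apply_right hC.symm ⟨v, hv1⟩
    have h2 : π s = ⟨s, hSC hs⟩ :=
      Submodule.projectionOnto_apply_left hC.symm ⟨s, hSC hs⟩
    rw [hw, map_add, h1, h2, zero_add]
  have hmem : ∀ x : P, (π x : M) ∈ S := by
    rintro ⟨x, hx⟩
    obtain ⟨a, rfl⟩ := Submodule.mem_span_singleton.1 hx
    simp only [map_smul, hπ]
    exact S.smul_mem a hs
  let f : P →ₗ[A] S := LinearMap.codRestrict S ((C.subtype ∘ₗ π) ∘ₗ P.subtype) hmem
  have hfw : f ⟨w, hwP⟩ = ⟨s, hs⟩ := by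
    apply Subtype.ext
    show (π w : M) = s
    rw [hπ]
  have hsurj : Function.Surjective f := by
    rcases LinearMap.surjective_or_eq_zero f with h1 | h1
    · exact h1
    · exfalso
      rw [h1] at hfw
      exact hs0 (congrArg Subtype.val hfw).symm
  obtain ⟨g, hg⟩ := IsSemisimpleModule.lifting_property f hsurj LinearMap.id
  have hginj : Function.Injective (P.subtype ∘ₗ g) := by
    intro x y hxy
    have h1 : g x = g y := Subtype.ext hxy
    have h2 : (f ∘ₗ g) x = (f ∘ₗ g) y := congrArg f h1
    rwa [hg] at h2
  have hST : S = LinearMap.range (P.subtype ∘ₗ g) :=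
    h _ _ hSs ⟨LinearEquiv.ofInjective _ hginj⟩
  have hSP : S ≤ P := by
    rw [hST]
    rintro _ ⟨x, rfl⟩
    exact (g x).2
  have hvP : v ∈ P := by
    have : v = w - s := by rw [hw]; abel
    rw [this]
    exact P.sub_mem hwP (hSP hs)
  refine hv P ⟨w, rfl⟩ (lt_of_le_of_ne ?_ ?_)
  · exact (Submodule.span_singleton_le_iff_mem v P).2 hvP
  · intro heq
    have h1 : s ∈ Submodule.span A {v} := by
      show s ∈ Submodule.span A {v}
      have h2 : s ∈ P := hSP hs
      rwa [← heq] at h2
    have h3 : s ∈ Submodule.span A {v} ⊓ C := ⟨h1, hSC hs⟩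
    rw [hC.inf_eq_bot] at h3
    exact hs0 ((Submodule.mem_bot A).1 h3)

section

variable {K G V : Type*} [Field K] [Group G] [AddCommGroup V] [Module K V]

set_option backward.isDefEq.respectTransparency false in
/-- The module of a subrepresentation. -/
def subEquiv (ρ : Representation K G V) (S : Subrepresentation ρ) :
    S.toRepresentation.asModule ≃ₗ[K[G]] S.asSubmodule where
  toFun x := ⟨(x : S.toSubmodule).1, (x : S.toSubmodule).2⟩
  invFun x := (⟨x.1, x.2⟩ : S.toSubmodule)
  map_add' x y := rfl
  map_smul' a x := by
    induction a using MonoidAlgebra.induction_linear with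
    | zero => simp
    | add p q hp hq =>
      rw [add_smul, RingHom.id_apply, add_smul]
      rw [RingHom.id_apply] at hp hq
      rw [← hp, ← hq]
      rfl
    | single g c =>
      apply Subtype.ext
      rw [Representation.single_smul]
      simp only [RingHom.id_apply]
      have h2 := Representation.single_smul (ρ := ρ) c g (x : S.toSubmodule).1
      exact h2.symm
  left_inv x := rfl
  right_inv x := rfl

/-- The dimension of a multiplicity-free representation is at most the order of the group. -/
theorem finrank_le [Finite G] [CharZero K] [FiniteDimensional K V] (ρ : Representation K G V)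
    (h : MultiplicityFree ρ) : finrank K V ≤ Nat.card G := by
  classical
  let _ : Fintype G := Fintype.ofFinite G
  have : NeZero (Nat.card G : K) := ⟨by exact_mod_cast Nat.card_pos.ne'⟩
  have : IsSemisimpleModule K[G] ρ.asModule := inferInstance
  have : Module.Finite K ρ.asModule := inferInstance
  have : IsNoetherian K[G] ρ.asModule :=
    isNoetherian_of_tower K inferInstance
  obtain ⟨v, hv⟩ := cyclic (A := K[G]) (M := ρ.asModule) (by
    intro P Q hP ⟨e⟩
    have h1 : Subrepresentation.asSubmodule (Subrepresentation.ofSubmodule' P) = P := rfl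
    have h2 : Subrepresentation.asSubmodule (Subrepresentation.ofSubmodule' Q) = Q := rfl
    have e1 := subEquiv ρ (Subrepresentation.ofSubmodule' P)
    have e2 := subEquiv ρ (Subrepresentation.ofSubmodule' Q)
    rw [h1] at e1
    rw [h2] at e2
    have hirr : (Subrepresentation.ofSubmodule' P).toRepresentation.IsIrreducible := by
      rw [Representation.irreducible_iff_isSimpleModule_asModule]
      exact IsSimpleModule.congr e1
    have e3 := (e1.trans e).trans e2.symm
    have := h (Subrepresentation.ofSubmodule' P) (Subrepresentation.ofSubmodule' Q) hirr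
      ⟨{ IntertwiningMap.equivLinearMapAsModule _ _ |>.symm e3.toLinearMap with
          invFun := e3.symm
          left_inv := e3.left_inv
          right_inv := e3.right_inv }⟩
    rw [← h1, ← h2, this])
  let F : K[G] →ₗ[K] ρ.asModule := (LinearMap.toSpanSingleton K[G] ρ.asModule v).restrictScalars K
  have hF : Function.Surjective F := by
    intro x
    have hx : x ∈ Submodule.span K[G] {v} := by rw [hv]; trivial
    obtain ⟨a, ha⟩ := Submodule.mem_span_singleton.1 hx
    exact ⟨a, ha⟩
  have h1 := LinearMap.finrank_le_finrank_of_surjective hF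
  have h2 : finrank K K[G] = Nat.card G := by
    rw [(MonoidAlgebra.coeffLinearEquiv (S := K) (M := G) K).finrank_eq]
    simp
  rw [h2] at h1
  exact h1

end

end Pool.Agent.X177.Hyp14
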